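import Pool.Agent.Helper76.PC.Stmts

/-! CLO: closed configurations -/

set_option autoImplicit false

namespace Pool.Agent.Helper76.PC

open Finset

/-- a sum over a neighbourhood that is the injective image of a list -/
theorem clo_sum (S : Finset ℕ) (l : List ℕ) (φ : ℕ → ℕ) (F : ℕ → ℕ) (h1 : (l.map φ).Nodup)
    (h2 : ∀ x, x ∈ S ↔ ∃ y ∈ l, φ y = x) : ∑ x ∈ S, F x = (l.map (fun y => F (φ y))).sum := by
  have hS : S = (l.map φ).toFinset := by
    ext x
    rw [h2 x, List.mem_toFinset, List.mem_map]
  rw [hS, List.sum_toFinset F h1, List.map_map]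
  rfl

theorem clo_sumO (g : ℕ → Option ℕ) (F : ℕ → ℕ) (C : ℝ) : ∀ (l : List ℕ) (k : ℕ),
    sumO g l = some k → (∀ y ∈ l, ∀ a, g y = some a → (F y : ℝ) ≤ a * C) →
    (((l.map F).sum : ℕ) : ℝ) ≤ k * C := by
  intro l
  induction l with
  | nil =>
    intro k h _
    simp only [sumO, Option.some.injEq] at h
    subst h
    simp
  | cons y l ih =>
    intro k h hy
    simp only [sumO] at h
    cases hg : g y with
    | none => simp [hg] at h
    | some a =>
      cases hs : sumO g l with
      | none => simp [hg, hs] at h
      | some b =>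
        simp only [hg, hs, Option.some.injEq] at h
        subst h
        have h1 := hy y (List.mem_cons_self) a hg
        have h2 := ih b hs (fun z hz => hy z (List.mem_cons_of_mem _ hz))
        simp only [List.map_cons, List.sum_cons]
        push_cast
        push_cast at h2
        nlinarith [h1, h2]

theorem clo_nil (s0 e0 n s e : ℕ) : pmc s0 e0 n [] s e =
    bif Nat.beq s s0 && Nat.beq e e0 then some 1 else none := by
  cases n <;> rfl

theorem clo_ind (h2 : ST_FULL) (h3 : ST_EDE2) (h4 : ST_EXP) (h5 : ST_WD)
    (hget : ∀ x K r, getV x K = some r → r ∈ K ∧ r.id = x) (s0 e0 : ℕ) :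
    ∀ (n : ℕ) (K : Cfg) (s e k : ℕ), pmc s0 e0 n K s e = some k →
    ∀ G φ f, Emb G φ f K → Below G → (K = [] → Good G) →
    (P G : ℝ) ≤ k * (W G * Real.exp (- AA * ((s0 : ℝ) - s) - cc * ((e0 : ℝ) - e))) := by
  intro n
  induction n with
  | zero =>
    intro K s e k h G φ f hE hB hG
    cases K with
    | nil =>
      rw [clo_nil] at h
      have hh : (Nat.beq s s0 && Nat.beq e e0) = true := by
        by_contra hc
        rw [Bool.not_eq_true] at hc
        rw [hc] at h
        exact absurd h (by simp)
      rw [hh] at h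
      have hk : 1 = k := by simpa using h
      rw [Bool.and_eq_true] at hh
      have hs := Nat.eq_of_beq_eq_true hh.1
      have he := Nat.eq_of_beq_eq_true hh.2
      subst hs
      subst he
      subst hk
      have := hG rfl
      simp only [sub_self, mul_zero, Real.exp_zero, mul_one, Nat.cast_one, one_mul]
      exact this
    | cons r K => simp [pmc] at h
  | succ n ih =>
    intro K s e k h G φ f hE hB hG
    cases K with
    | nil =>
      rw [clo_nil] at h
      have hh : (Nat.beq s s0 && Nat.beq e e0) = true := by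
        by_contra hc
        rw [Bool.not_eq_true] at hc
        rw [hc] at h
        exact absurd h (by simp)
      rw [hh] at h
      have hk : 1 = k := by simpa using h
      rw [Bool.and_eq_true] at hh
      have hs := Nat.eq_of_beq_eq_true hh.1
      have he := Nat.eq_of_beq_eq_true hh.2
      subst hs
      subst he
      subst hk
      have := hG rfl
      simp only [sub_self, mul_zero, Real.exp_zero, mul_one, Nat.cast_one, one_mul]
      exact this
    | cons r K =>
      have hr : r ∈ r :: K := List.mem_cons_self
      have hfull : full r = true := by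
        by_contra hc
        rw [Bool.not_eq_true] at hc
        rw [pmc, hc] at h
        exact absurd h (by simp)
      rw [pmc, hfull] at h
      simp only [cond_true] at h
      obtain ⟨hnd, -, hF⟩ := h2 G φ f (r :: K) hE r hr
      obtain ⟨hrc, -, hmem⟩ := hF hfull
      have hv := hE.memV r hr
      rw [h4 G (φ r.id) hv, clo_sum (G.N (φ r.id)) r.nb φ
        (fun y => P (del (del G (φ r.id)) y)) hnd hmem]
      refine clo_sumO _ _ _ r.nb k h ?_
      intro y hy a ha
      cases hq : getV y (r :: K) with
      | none => simp [hq] at ha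
      | some q =>
        simp only [hq] at ha
        have hqf : full q = true := by
          by_contra hc
          rw [Bool.not_eq_true] at hc
          rw [hc] at ha
          exact absurd ha (by simp)
        rw [hqf] at ha
        simp only [cond_true] at ha
        obtain ⟨hqK, hqid⟩ := hget y (r :: K) q hq
        obtain ⟨-, -, hF2⟩ := h2 G φ f (r :: K) hE q hqK
        obtain ⟨hqc, -, -⟩ := hF2 hqf
        rw [hqid] at hqc
        have hadj := hE.adj r hr y hy
        obtain ⟨hW, hsz⟩ := h5 G (φ r.id) (φ y) hadj
        rw [hrc, hqc] at hW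
        have hpos : 1 ≤ r.hi + q.hi := by
          have : 0 < (G.N (φ r.id)).card := Finset.card_pos.2 ⟨_, hadj⟩
          omega
        have hind := ih _ _ _ _ ha (del (del G (φ r.id)) (φ y)) φ f
          (h3 G φ f (r :: K) hE r hr y) (fun H hH => hB H (lt_trans hH hsz))
          (fun _ => hB _ hsz)
        refine hind.trans (le_of_eq ?_)
        rw [hW, UU]
        rw [mul_assoc (W G), ← Real.exp_add]
        congr 3
        push_cast [Nat.cast_sub hpos]
        ring

theorem clo_num (s e n : ℕ) (h : n ^ 21 * 9 ^ (3 * s) ≤ 108 ^ e * 2 ^ (3 * s)) :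
    (n : ℝ) * Real.exp (- AA * (s : ℝ) - cc * (e : ℝ)) ≤ 1 := by
  have h0 : (0 : ℝ) ≤ (n : ℝ) * Real.exp (- AA * (s : ℝ) - cc * (e : ℝ)) := by positivity
  rw [← pow_le_one_iff_of_nonneg h0 (by norm_num : (21 : ℕ) ≠ 0), mul_pow, ← Real.exp_nat_mul]
  have he : ((21 : ℕ) : ℝ) * (- AA * (s : ℝ) - cc * (e : ℝ)) =
      ((3 * s : ℕ) : ℝ) * Real.log (9 / 2) - (e : ℝ) * Real.log 108 := by
    unfold AA cc
    push_cast
    ring
  rw [he, Real.exp_sub, Real.exp_nat_mul, Real.exp_nat_mul, Real.exp_log (by norm_num),
    Real.exp_log (by norm_num), ← mul_div_assoc, div_le_one (by positivity), div_pow,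
    ← mul_div_assoc, div_le_iff₀ (by positivity)]
  exact_mod_cast h

theorem st_CLO (h1 : ST_LST) (h2 : ST_FULL) (h3 : ST_EDE2) (h4 : ST_EXP) (h5 : ST_WD) :
    ST_CLO := by
  have hget := h1.2.2.2.2.2.2.1
  intro s e K hc dm G φ f hE hB _
  cases K with
  | nil => simp [closedOK] at hc
  | cons r K =>
    simp only [closedOK] at hc
    cases hp : pmc s e s (r :: K) 0 0 with
    | none => simp [hp] at hc
    | some n =>
      simp only [hp] at hc
      have hle := Nat.le_of_ble_eq_true hc
      have hind := clo_ind h2 h3 h4 h5 hget s e s (r :: K) 0 0 n hp G φ f hE hB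
        (fun hh => absurd hh (by simp))
      have hnum := clo_num s e n hle
      have hW : 0 ≤ W G := (Real.exp_pos _).le
      refine hind.trans ?_
      simp only [Nat.cast_zero, sub_zero]
      calc (n : ℝ) * (W G * Real.exp (- AA * (s : ℝ) - cc * (e : ℝ)))
          = W G * ((n : ℝ) * Real.exp (- AA * (s : ℝ) - cc * (e : ℝ))) := by ring
        _ ≤ W G * 1 := mul_le_mul_of_nonneg_left hnum hW
        _ = W G := mul_one _

end Pool.Agent.Helper76.PC
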